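import Pool.Agent.Y981.QB.Stm

set_option autoImplicit false

/-!
# Clean blocks of an integer sequence (project QB, statement G2)
-/

namespace Pool.Agent.Y460.QB

open Pool.Agent.Y981.QB

/-- potential argument: a nonnegative quantity which drops by `U` at the good times (down to zero)
and grows by at most `4 U` at the bad ones is positive at few good times -/
theorem count_pos (U : ℤ) (hU : 0 < U) (d : ℕ → ℤ) (G : Finset ℕ) (B : ℕ) (h0 : d 0 = 0)
    (hnn : ∀ b, 0 ≤ d b) (hg : ∀ b < B, b ∈ G → d (b + 1) ≤ max (d b - U) 0)
    (hb : ∀ b < B, b ∉ G → d (b + 1) ≤ d b + 4 * U) :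
    ((Finset.range B).filter fun b => b ∈ G ∧ 0 < d b).card ≤
      5 * ((Finset.range B).filter fun b => b ∉ G).card := by
  have key : ∀ c ≤ B, U * (((Finset.range c).filter fun b => b ∈ G ∧ 0 < d b).card : ℤ) +
      (if 0 < d c then d c + U else 0) ≤
      5 * U * (((Finset.range c).filter fun b => b ∉ G).card : ℤ) := by
    intro c
    induction c with
    | zero => intro _; simp [h0]
    | succ c ih =>
      intro hc
      have ih := ih (by omega)
      have h1 := hnn c
      have h2 := hnn (c + 1)
      rw [Finset.range_add_one, Finset.filter_insert, Finset.filter_insert]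
      by_cases hcG : c ∈ G
      · have h3 := hg c (by omega) hcG
        have h4 : ¬ (c ∉ G) := by simpa using hcG
        rw [if_neg h4]
        by_cases hd : 0 < d c
        · rw [if_pos ⟨hcG, hd⟩, Finset.card_insert_of_notMem (by simp)]
          rw [if_pos hd] at ih
          push_cast
          rcases le_max_iff.1 h3 with h5 | h5
          · split_ifs with h6
            · nlinarith
            · nlinarith
          · have h6 : ¬ 0 < d (c + 1) := by linarith
            rw [if_neg h6]
            nlinarith
        · rw [if_neg (fun h => hd h.2)]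
          rw [if_neg hd] at ih
          have h5 : d c = 0 := by linarith
          have h6 : ¬ 0 < d (c + 1) := by
            rw [h5] at h3
            have h7 : max (0 - U) 0 = 0 := max_eq_right (by linarith)
            rw [h7] at h3
            linarith
          rw [if_neg h6]
          exact ih
      · have h3 := hb c (by omega) hcG
        rw [if_neg (fun h => hcG h.1), if_pos hcG, Finset.card_insert_of_notMem (by simp)]
        push_cast
        by_cases hd : 0 < d c
        · rw [if_pos hd] at ih
          split_ifs with h6
          · nlinarith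
          · nlinarith
        · rw [if_neg hd] at ih
          have h5 : d c = 0 := by linarith
          split_ifs with h6
          · nlinarith
          · nlinarith
  have h1 := key B le_rfl
  have h2 : (0 : ℤ) ≤ (if 0 < d B then d B + U else 0) := by
    split_ifs with h
    · linarith
    · exact le_rfl
  have h3 : U * (((Finset.range B).filter fun b => b ∈ G ∧ 0 < d b).card : ℤ) ≤
      U * (5 * (((Finset.range B).filter fun b => b ∉ G).card : ℤ)) := by linarith
  have h4 := le_of_mul_le_mul_left h3 hU
  exact_mod_cast h4

/-- one-sided version: few good blocks start below the running maximum -/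
theorem one_sided (L B W : ℕ) (a : ℕ → ℤ) (G : Finset ℕ) (hL : 1 ≤ L) (hW : 1 ≤ W)
    (hstep : ∀ j < L * B, |a (j + 1) - a j| ≤ 2 * W)
    (hG : ∀ b ∈ G, b < B ∧ (∀ q < L, a (L * b + q) ≤ a (L * b + q + 1)) ∧
      a (L * b) + L * W ≤ a (L * (b + 1))) :
    ∃ D : Finset ℕ, D.card ≤ 5 * (B - G.card) ∧
      ∀ b ∈ G, b ∉ D → ∀ j ≤ L * b, a j ≤ a (L * b) := by
  classical
  have hne : ∀ b, (Finset.range (L * b + 1)).Nonempty := fun b => ⟨0, by simp⟩
  obtain ⟨M, hM⟩ : ∃ M : ℕ → ℤ, ∀ b, M b = (Finset.range (L * b + 1)).sup' (hne b) a :=
    ⟨_, fun _ => rfl⟩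
  have hle : ∀ b, ∀ j ≤ L * b, a j ≤ M b := by
    intro b j hj
    rw [hM]
    exact Finset.le_sup' a (Finset.mem_range.2 (by omega))
  have hub : ∀ b (z : ℤ), (∀ j ≤ L * b, a j ≤ z) → M b ≤ z := by
    intro b z hz
    rw [hM]
    exact Finset.sup'_le _ _ fun j hj => hz j (by have := Finset.mem_range.1 hj; omega)
  have hGr : G ⊆ Finset.range B := fun b hb => Finset.mem_range.2 (hG b hb).1
  have hU : (0 : ℤ) < (L : ℤ) * W := by positivity
  have hblk : ∀ b, b < B → ∀ q ≤ L, |a (L * b + q) - a (L * b)| ≤ 2 * W * q := by
    intro b hb q
    induction q with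
    | zero => intro _; simp
    | succ q ih =>
      intro hq
      have h1 := ih (by omega)
      have h2 : L * b + q < L * B := by
        have : L * (b + 1) ≤ L * B := Nat.mul_le_mul_left _ hb
        have h3 : L * (b + 1) = L * b + L := by ring
        omega
      have h3 := hstep _ h2
      rw [abs_le] at h1 h3 ⊢
      push_cast
      rw [show L * b + (q + 1) = L * b + q + 1 by ring]
      constructor <;> nlinarith [h1.1, h1.2, h3.1, h3.2]
  have hcnt := count_pos ((L : ℤ) * W) hU (fun b => M b - a (L * b)) G B
    (by
      show M 0 - a (L * 0) = 0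
      have h1 := hle 0 0 (by simp)
      have h2 := hub 0 (a 0) (by intro j hj; have : j = 0 := by simpa using hj
                                 rw [this])
      simp only [mul_zero]
      linarith)
    (fun b => by
      show 0 ≤ M b - a (L * b)
      linarith [hle b (L * b) le_rfl])
    (fun b hb hbG => by
      show M (b + 1) - a (L * (b + 1)) ≤ max (M b - a (L * b) - L * W) 0
      obtain ⟨-, h2, h3⟩ := hG b hbG
      have hmono : ∀ k q, q + k = L → a (L * b + q) ≤ a (L * (b + 1)) := by
        intro k
        induction k with
        | zero =>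
          intro q hq
          have : L * b + q = L * (b + 1) := by rw [mul_add, mul_one]; omega
          rw [this]
        | succ k ih =>
          intro q hq
          exact (h2 q (by omega)).trans (ih (q + 1) (by omega))
      have h4 : M (b + 1) ≤ max (M b) (a (L * (b + 1))) := by
        refine hub _ _ fun j hj => ?_
        by_cases hj' : j ≤ L * b
        · exact (hle b j hj').trans (le_max_left _ _)
        · refine le_trans ?_ (le_max_right _ _)
          have h5 : L * (b + 1) = L * b + L := by ring
          have h6 : L * b + (j - L * b) = j := by omega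
          rw [← h6]
          exact hmono (L - (j - L * b)) _ (by omega)
      rcases le_max_iff.1 h4 with h5 | h5
      · exact le_max_of_le_left (by linarith)
      · exact le_max_of_le_right (by linarith))
    (fun b hb _ => by
      show M (b + 1) - a (L * (b + 1)) ≤ M b - a (L * b) + 4 * (L * W)
      have h5 : L * (b + 1) = L * b + L := by ring
      have h6 := hblk b hb L le_rfl
      rw [abs_le] at h6
      have h7 := hle b (L * b) le_rfl
      have h4 : M (b + 1) ≤ M b + 2 * (L * W) := by
        refine hub _ _ fun j hj => ?_
        by_cases hj' : j ≤ L * b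
        · have := hle b j hj'
          linarith
        · have h8 := hblk b hb (j - L * b) (by omega)
          have h9 : L * b + (j - L * b) = j := by omega
          rw [h9, abs_le] at h8
          have h10 : ((j - L * b : ℕ) : ℤ) ≤ L := by
            have : j - L * b ≤ L := by omega
            exact_mod_cast this
          have h11 : 2 * (W : ℤ) * ((j - L * b : ℕ) : ℤ) ≤ 2 * W * L := by
            have : (0 : ℤ) ≤ 2 * W := by positivity
            exact mul_le_mul_of_nonneg_left h10 this
          linarith [h8.2]
      rw [h5]
      linarith [h6.1])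
  refine ⟨(Finset.range B).filter fun b => b ∈ G ∧ 0 < M b - a (L * b), ?_, ?_⟩
  · have h1 : ((Finset.range B).filter fun b => b ∉ G).card = B - G.card := by
      have h2 : ((Finset.range B).filter fun b => b ∉ G) = Finset.range B \ G := by
        ext b
        simp
      rw [h2, Finset.card_sdiff_of_subset hGr, Finset.card_range]
    rw [h1] at hcnt
    exact hcnt
  · intro b hb hbD j hj
    have h1 : ¬ 0 < M b - a (L * b) := by
      intro h
      exact hbD (Finset.mem_filter.2 ⟨hGr hb, hb, h⟩)
    linarith [hle b j hj]

theorem g2 : S_G2 := by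
  classical
  intro L B W β a G hL hW hstep hG hβ
  have hGr : G ⊆ Finset.range B := fun b hb => Finset.mem_range.2 (hG b hb).1
  have hGc : G.card ≤ B := by simpa using Finset.card_le_card hGr
  obtain ⟨D, hD, hD'⟩ := one_sided L B W a G hL hW hstep hG
  -- the reversed sequence
  obtain ⟨E, hE, hE'⟩ := one_sided L B W (fun j => - a (L * B - j)) (G.image fun b => B - 1 - b)
    hL hW
    (by
      intro j hj
      show |(- a (L * B - (j + 1))) - (- a (L * B - j))| ≤ 2 * W
      have h1 := hstep (L * B - (j + 1)) (by omega)
      have h2 : L * B - (j + 1) + 1 = L * B - j := by omega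
      rw [h2] at h1
      have h3 : (- a (L * B - (j + 1))) - (- a (L * B - j)) =
          a (L * B - j) - a (L * B - (j + 1)) := by ring
      rw [h3]
      exact h1)
    (by
      intro c hc
      obtain ⟨b, hb, rfl⟩ := Finset.mem_image.1 hc
      obtain ⟨h1, h2, h3⟩ := hG b hb
      have e1 : L * (B - 1 - b) + L * (b + 1) = L * B := by
        rw [← mul_add]
        congr 1
        omega
      have e2 : L * (b + 1) = L * b + L := by ring
      have e3 : L * (B - 1 - b + 1) + L * b = L * B := by
        rw [← mul_add]
        congr 1
        omega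
      refine ⟨by omega, ?_, ?_⟩
      · intro q hq
        show - a (L * B - (L * (B - 1 - b) + q)) ≤ - a (L * B - (L * (B - 1 - b) + q + 1))
        have h4 := h2 (L - 1 - q) (by omega)
        have h5 : L * B - (L * (B - 1 - b) + q) = L * b + (L - 1 - q) + 1 := by omega
        have h6 : L * B - (L * (B - 1 - b) + q + 1) = L * b + (L - 1 - q) := by omega
        rw [h5, h6]
        linarith
      · show - a (L * B - L * (B - 1 - b)) + L * W ≤ - a (L * B - L * (B - 1 - b + 1))
        have h5 : L * B - L * (B - 1 - b) = L * (b + 1) := by omega
        have h6 : L * B - L * (B - 1 - b + 1) = L * b := by omega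
        rw [h5, h6]
        linarith)
  have hinj : Set.InjOn (fun b => B - 1 - b) (G : Set ℕ) := by
    intro b hb c hc h
    have h1 := (hG b hb).1
    have h2 := (hG c hc).1
    simp only at h
    omega
  have hcard : (G.image fun b => B - 1 - b).card = G.card := Finset.card_image_of_injOn hinj
  rw [hcard] at hE
  refine ⟨G \ (D ∪ E.image fun c => B - 1 - c), Finset.sdiff_subset, ?_, ?_⟩
  · have h1 : (E.image fun c => B - 1 - c).card ≤ E.card := Finset.card_image_le
    have h2 : (D ∪ E.image fun c => B - 1 - c).card ≤ D.card +
        (E.image fun c => B - 1 - c).card := Finset.card_union_le _ _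
    have h3 := Finset.le_card_sdiff (D ∪ E.image fun c => B - 1 - c) G
    omega
  · intro b hb
    rw [Finset.mem_sdiff, Finset.mem_union, not_or] at hb
    obtain ⟨hbG, hbD, hbE⟩ := hb
    refine ⟨hD' b hbG hbD, ?_⟩
    intro j hj1 hj2
    have h1 := (hG b hbG).1
    have h2 := hE' (B - 1 - b) (Finset.mem_image_of_mem _ hbG)
      (fun h => hbE (Finset.mem_image.2 ⟨B - 1 - b, h, by omega⟩)) (L * B - j)
      (by
        have e1 : L * (B - 1 - b) + L * (b + 1) = L * B := by
          rw [← mul_add]
          congr 1
          omega
        omega)
    have h3 : - a (L * B - (L * B - j)) ≤ - a (L * B - L * (B - 1 - b)) := h2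
    have e1 : L * (B - 1 - b) + L * (b + 1) = L * B := by
      rw [← mul_add]
      congr 1
      omega
    have h4 : L * B - (L * B - j) = j := by omega
    have h5 : L * B - L * (B - 1 - b) = L * (b + 1) := by omega
    rw [h4, h5] at h3
    linarith

end Pool.Agent.Y460.QB
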